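import Pool.Agent.Helper35.HG.StE

/-!
# Project HG (MP_925021_gt), module RL3: regime of large `g`
-/

set_option autoImplicit false

namespace Helper71.HG

open Helper35.HG

theorem rl3_h (X : ℝ) (hX : 0 ≤ X) : 0 ≤ hh X ∧ hh X ≤ 1 := by
  have h1 : 0 < 1 + 13 / 4 * X := by positivity
  unfold hh
  exact ⟨by positivity, by rw [div_le_one h1]; linarith⟩

theorem rl3_J (X : ℝ) (hX : 0 ≤ X) : Jf X ≤ 433 / 1000 + 23 / 100 * X := by
  have h := (rl3_h X hX).2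
  unfold Jf
  linarith

theorem rl3_L (X : ℝ) (hX : 0 ≤ X) : 263 / 1000 ≤ Lf X ∧ Lf X ≤ 433 / 1000 := by
  obtain ⟨h0, h1⟩ := rl3_h X hX
  unfold Lf
  have h2 : 0 ≤ hh X * (2 - hh X) := mul_nonneg h0 (by linarith)
  have h3 : 0 ≤ (1 - hh X) ^ 2 := sq_nonneg _
  constructor <;> nlinarith

theorem rl3_D (u g : ℝ) (hu : 0 ≤ u) (hug : u ≤ g) : 0 ≤ D1f u g ∧ D1f u g ≤ 3 / 10 * g := by
  have h1 : 0 < 1 + u := by positivity
  have h2 : 0 ≤ u / (1 + u) := by positivity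
  have h3 : u / (1 + u) ≤ 1 := by rw [div_le_one h1]; linarith
  have h4 : u * (u / (1 + u)) ≤ u * 1 := mul_le_mul_of_nonneg_left h3 hu
  have h5 : 0 ≤ u * (u / (1 + u)) := mul_nonneg hu h2
  unfold D1f
  constructor <;> linarith

/-- the common part of the estimates -/
theorem rl3_c (X u g N R : ℝ) (h : RH X u g N R) : 0 ≤ X ∧ 0 ≤ g ∧
    Vf X u g ≤ 433 / 1000 + 3 / 10 * g + 23 / 100 * X ∧
    Vf X u g * R ≤ 2 * (23 / 100) * (433 / 1000 + 3 / 10 * g) *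
      (16 / 3 * N * (g * (g + 2) - u * (u + 2))) := by
  have hg : 0 ≤ g := h.u0.trans h.ug
  have hX : 0 ≤ X := by
    have := h.u0
    rw [h.hX]
    positivity
  have hV : Vf X u g ≤ 433 / 1000 + 3 / 10 * g + 23 / 100 * X := by
    have h1 := rl3_J X hX
    have h2 := h.u0
    unfold Vf
    linarith
  refine ⟨hX, hg, hV, ?_⟩
  have h3 : Vf X u g * R ≤ (433 / 1000 + 3 / 10 * g + 23 / 100 * X) * R :=
    mul_le_mul_of_nonneg_right hV h.R0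
  have h4 : (433 / 1000 + 3 / 10 * g) * R ≤ (433 / 1000 + 3 / 10 * g) *
      (23 / 100 * (16 / 3 * N * (g * (g + 2) - u * (u + 2)))) :=
    mul_le_mul_of_nonneg_left h.R1 (by positivity)
  have h5 := h.R2
  nlinarith

theorem rl3_8 (hMBD : StMBD) (X u g N R : ℝ) (h : RH X u g N R) :
    FR (4 / 5) X u g N R ≤ cB8 u g + cC (4 / 5) u g * N + cD8 u g * N ^ 2 := by
  obtain ⟨hX, hg, hV, hVR⟩ := rl3_c X u g N R h
  obtain ⟨hL0, hL1⟩ := rl3_L X hX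
  obtain ⟨hD0, hD1⟩ := rl3_D u g h.u0 h.ug
  have hM := (hMBD X hX).1
  have hu := h.u0
  have hid : (4 / 5 * Vf X u g + X + 1) * (Lf X + D1f u g) - 2 * Vf X u g
      + (1 - 4 / 5 / 4) * Vf X u g * ((433 / 1000 + 3 / 10 * g) / 2 + R) =
      Mf (4 / 5) X - (18268 / 10000 - 4 / 5 * Lf X) * (3 / 10 * g)
        + (18268 / 10000 - 4 / 5 * Lf X) * (6 / 10 * u)
        + (4 / 5 * Vf X u g + X + 1) * D1f u g + 2 / 5 * (Vf X u g * (3 / 10 * g))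
        + 4 / 5 * (Vf X u g * R) := by
    unfold Mf Vf
    ring
  have hcD : cD8 u g * N ^ 2 = X * (-(1064 / 10000) + 92 / 1000 * (3 / 10 * g)
      + 1184 / 1000 * D1f u g)
      - 6938 / 10000 * (16 / 5 * N ^ 2 * (g * (g + 2)) ^ 2 / (1 + g)) := by
    rw [h.hX]
    unfold cD8
    ring
  have b1 : -((18268 / 10000 - 4 / 5 * Lf X) * (3 / 10 * g)) ≤ -(14804 / 10000 * (3 / 10 * g)) := by
    have : 14804 / 10000 * (3 / 10 * g) ≤ (18268 / 10000 - 4 / 5 * Lf X) * (3 / 10 * g) :=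
      mul_le_mul_of_nonneg_right (by linarith) (by positivity)
    linarith
  have b2 : (18268 / 10000 - 4 / 5 * Lf X) * (6 / 10 * u) ≤ 16164 / 10000 * (6 / 10 * u) :=
    mul_le_mul_of_nonneg_right (by linarith) (by positivity)
  have b3 : (4 / 5 * Vf X u g + X + 1) * D1f u g ≤
      (13464 / 10000 + 1184 / 1000 * X + 4 / 5 * (3 / 10 * g)) * D1f u g :=
    mul_le_mul_of_nonneg_right (by linarith) hD0
  have b4 : (13464 / 10000 + 4 / 5 * (3 / 10 * g)) * D1f u g ≤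
      (13464 / 10000 + 4 / 5 * (3 / 10 * g)) * (3 / 10 * g) :=
    mul_le_mul_of_nonneg_left hD1 (by positivity)
  have b5 : Vf X u g * (3 / 10 * g) ≤
      (433 / 1000 + 3 / 10 * g + 23 / 100 * X) * (3 / 10 * g) :=
    mul_le_mul_of_nonneg_right hV (by positivity)
  rw [hcD]
  unfold FR cB8 cC
  rw [hid]
  nlinarith [hM, b1, b2, b3, b4, b5, hV, hVR, hg, hu]

theorem rl3_0 (hMBD : StMBD) (X u g N R : ℝ) (h : RH X u g N R) :
    FR 0 X u g N R ≤ cB0 u g + cC 1 u g * N + cD0 u g * N ^ 2 := by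
  obtain ⟨hX, hg, hV, hVR⟩ := rl3_c X u g N R h
  obtain ⟨hD0, hD1⟩ := rl3_D u g h.u0 h.ug
  have hM := (hMBD X hX).2
  have hu := h.u0
  have hid : (0 * Vf X u g + X + 1) * (Lf X + D1f u g) - 2 * Vf X u g
      + (1 - 0 / 4) * Vf X u g * ((433 / 1000 + 3 / 10 * g) / 2 + R) =
      Mf 0 X - 17835 / 10000 * (3 / 10 * g) + 17835 / 10000 * (6 / 10 * u)
        + X * D1f u g + D1f u g + 1 / 2 * (Vf X u g * (3 / 10 * g))
        + Vf X u g * R := by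
    unfold Mf Vf
    ring
  have hcD : cD0 u g * N ^ 2 = X * (-(1447 / 10000) + 115 / 1000 * (3 / 10 * g)
      + D1f u g)
      - 6938 / 10000 * (16 / 5 * N ^ 2 * (g * (g + 2)) ^ 2 / (1 + g)) := by
    rw [h.hX]
    unfold cD0
    ring
  have b5 : Vf X u g * (3 / 10 * g) ≤
      (433 / 1000 + 3 / 10 * g + 23 / 100 * X) * (3 / 10 * g) :=
    mul_le_mul_of_nonneg_right hV (by positivity)
  rw [hcD]
  unfold FR cB0 cC
  rw [hid]
  nlinarith [hM, b5, hV, hVR, hg, hu, hD1]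

theorem rl3_f (c₀ c₁ c₂ N F : ℝ) (hN : 1 ≤ N) (h0 : 0 ≤ c₀) (h1 : 0 ≤ c₁)
    (h : c₀ + c₁ + c₂ ≤ 0) (hF : F ≤ c₀ + c₁ * N + c₂ * N ^ 2) : F ≤ 0 := by
  have h2 : N ≤ N ^ 2 := by nlinarith
  have h3 : 1 ≤ N ^ 2 := by nlinarith
  have h4 : c₀ * 1 ≤ c₀ * N ^ 2 := mul_le_mul_of_nonneg_left h3 h0
  have h5 : c₁ * N ≤ c₁ * N ^ 2 := mul_le_mul_of_nonneg_left h2 h1
  have h6 : (c₀ + c₁ + c₂) * N ^ 2 ≤ 0 :=
    mul_nonpos_of_nonpos_of_nonneg h (by positivity)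
  nlinarith

theorem rl3_cC (b u g : ℝ) (hb : 0 ≤ b) (hu : 0 ≤ u) (hug : u ≤ g) : 0 ≤ cC b u g := by
  have hg : 0 ≤ g := hu.trans hug
  have h1 : 0 ≤ g * (g + 2) - u * (u + 2) := by nlinarith
  unfold cC
  positivity

/-- **RL3**. -/
theorem hRL3 (hMBD : StMBD) (hPQ3 : StPQ3) : StRL3 := by
  intro X u g N R h
  have hg : 0 ≤ g := h.u0.trans h.ug
  have hu := h.u0
  obtain ⟨q1, q2⟩ := hPQ3 u g h.u0 h.ug
  constructor
  · intro h1
    refine rl3_f _ _ _ N _ h.N1 ?_ (rl3_cC _ u g (by norm_num) h.u0 h.ug) (q1 h1)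
      (rl3_8 hMBD X u g N R h)
    unfold cB8
    positivity
  · intro h1
    refine rl3_f _ _ _ N _ h.N1 ?_ (rl3_cC _ u g (by norm_num) h.u0 h.ug) (q2 h1)
      (rl3_0 hMBD X u g N R h)
    unfold cB0
    positivity

end Helper71.HG
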